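import Pool.Agent.P.MP_5517c4_pr.Cca.Prob
import Pool.Agent.P.MP_5517c4_pr.Cca.A34.K0

set_option autoImplicit false
set_option maxRecDepth 100000
set_option maxHeartbeats 0

namespace Pool.Agent.P.MP_5517c4_pr.Cca.A34

theorem gd : Gd ce (4 * 2 ^ 28) 0 where
  hκ := by decide +kernel
  hd := by decide +kernel
  hT := by decide +kernel
  hS := by decide +kernel
  hK := by decide +kernel
  h0 := by decide +kernel
  hL := fun j hj => by
    have : j + 1 < 3 := hj
    have : j < 2 := by omega
    interval_cases j
    · exact fun x => (k0.2.2) x (Nat.zero_le _)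
    · exact fun x => (k0.2.1) x (Nat.zero_le _)
  hC := fun x => (k0.1) x (Nat.zero_le _)

end Pool.Agent.P.MP_5517c4_pr.Cca.A34
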